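import Pool.Agent.Q102.TT.Sub
import Pool.Agent.Q102.TT.Ins
import Pool.Agent.Results.MP_95030e_al.TwoOrThreeTerms

set_option autoImplicit false

noncomputable section

namespace Pool.Agent.Results.MP_c5ea68_al.CutVertices

open Pool.Agent.Results.MP_95030e_al.AllOrNothing
open Pool.Agent.Results.MP_95030e_al.TwoOrThreeTerms (terms AtMostThree ofInt ofRat absSum)

/-- The submatrix of `A` with rows in `S` and columns in `T`, filled up with zeros. The filling
adds to the kernel dimension the number of rows outside of `S`, an integer. -/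
def sub {G : Type} {m n : ℕ} (S : Finset (Fin m)) (T : Finset (Fin n))
    (A : Matrix (Fin m) (Fin n) (G →₀ ℂ)) : Matrix (Fin m) (Fin n) (G →₀ ℂ) :=
  fun i j => if i ∈ S ∧ j ∈ T then A i j else 0

/-- All matrices over the group ring of `H` with coefficients in `P` have integral kernel
dimension. For `P = ℚ` this is the Atiyah conjecture for `H`. -/
def Integral (P : Set ℂ) (H : Type) [Group H] : Prop :=
  ∀ (m n : ℕ) (A : Matrix (Fin m) (Fin n) (H →₀ ℂ)), (∀ i j g, A i j g ∈ P) →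
    ∃ z : ℤ, kerDim A = z

/-- `Built P A R C`: the part of the matrix `A` with rows in `R` and columns in `C` is built from
the following pieces by gluing along one row or along one column. -/
inductive Built (P : Set ℂ) {G : Type} [Group G] {m n : ℕ}
    (A : Matrix (Fin m) (Fin n) (G →₀ ℂ)) : Finset (Fin m) → Finset (Fin n) → Prop
  /-- `G` torsion-free, at most two terms in each column -/
  | columns (R : Finset (Fin m)) (C : Finset (Fin n)) : TorsionFree G →
      (∀ j ∈ C, ∑ i ∈ R, terms (A i j) ≤ 2) → Built P A R C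
  /-- `G` torsion-free, at most two terms in each row -/
  | rows (R : Finset (Fin m)) (C : Finset (Fin n)) : TorsionFree G →
      (∀ i ∈ R, ∑ j ∈ C, terms (A i j) ≤ 2) → Built P A R C
  /-- a matrix over a subgroup with integral kernel dimensions, up to multiplication of the rows
  and the columns by elements of `G` -/
  | subgroup (R : Finset (Fin m)) (C : Finset (Fin n)) (H : Subgroup G) (u : Fin m → G)
      (v : Fin n → G) : Integral P H → (∀ i ∈ R, ∀ j ∈ C, ∀ g, A i j g ≠ 0 → u i * g * v j ∈ H) →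
      Built P A R C
  /-- a matrix all submatrices of which have integral kernel dimension -/
  | integral (R : Finset (Fin m)) (C : Finset (Fin n)) :
      (∀ S ⊆ R, ∀ T ⊆ C, ∃ z : ℤ, kerDim (sub S T A) = z) → Built P A R C
  /-- gluing along the row `r`: both parts may contain the row `r` but have no other common row,
  and a nonzero entry in a row of one part and in a column of the other lies in a common row -/
  | row (R₁ R₂ : Finset (Fin m)) (C₁ C₂ : Finset (Fin n)) (r : Fin m) : R₁ ∩ R₂ ⊆ {r} →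
      (∀ i ∈ R₁, ∀ j ∈ C₂, A i j ≠ 0 → i ∈ R₂) → (∀ i ∈ R₂, ∀ j ∈ C₁, A i j ≠ 0 → i ∈ R₁) →
      Built P A R₁ C₁ → Built P A R₂ C₂ → Built P A (R₁ ∪ R₂) (C₁ ∪ C₂)
  /-- gluing along the column `r` -/
  | column (R₁ R₂ : Finset (Fin m)) (C₁ C₂ : Finset (Fin n)) (r : Fin n) : C₁ ∩ C₂ ⊆ {r} →
      (∀ i ∈ R₁, ∀ j ∈ C₂, A i j ≠ 0 → j ∈ C₁) → (∀ i ∈ R₂, ∀ j ∈ C₁, A i j ≠ 0 → j ∈ C₂) →
      Built P A R₁ C₁ → Built P A R₂ C₂ → Built P A (R₁ ∪ R₂) (C₁ ∪ C₂)

/-- A decomposition of a matrix into two parts, with the rows `R₁` and the columns `C₁` and with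
the rows `R₂` and the columns `C₂`, which have at most one row in common, such that a nonzero entry
in a row of one part and in a column of the other lies in a common row; or the same with columns. -/
def Separates {α : Type} [Zero α] {m n : ℕ} (A : Matrix (Fin m) (Fin n) α)
    (R₁ R₂ : Finset (Fin m)) (C₁ C₂ : Finset (Fin n)) : Prop :=
  R₁ ∪ R₂ = Finset.univ ∧ C₁ ∪ C₂ = Finset.univ ∧
  (((R₁ ∩ R₂).card ≤ 1 ∧ (∀ i ∈ R₁, ∀ j ∈ C₂, A i j ≠ 0 → i ∈ R₂) ∧
      ∀ i ∈ R₂, ∀ j ∈ C₁, A i j ≠ 0 → i ∈ R₁) ∨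
    ((C₁ ∩ C₂).card ≤ 1 ∧ (∀ i ∈ R₁, ∀ j ∈ C₂, A i j ≠ 0 → j ∈ C₁) ∧
      ∀ i ∈ R₂, ∀ j ∈ C₁, A i j ≠ 0 → j ∈ C₂))

/-- In every such decomposition one of the parts is the whole matrix: the bipartite graph of the
nonzero entries has no cut vertex and is connected. -/
def Inseparable {α : Type} [Zero α] {m n : ℕ} (A : Matrix (Fin m) (Fin n) α) : Prop :=
  ∀ (R₁ R₂ : Finset (Fin m)) (C₁ C₂ : Finset (Fin n)), Separates A R₁ R₂ C₁ C₂ →
    (R₁ = Finset.univ ∧ C₁ = Finset.univ) ∨ (R₂ = Finset.univ ∧ C₂ = Finset.univ)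

open Pool.Agent.Q102.TT hiding Separates Inseparable
open Pool.Agent.W649.ZL
open TH57.Thr.Ati hiding kerDim

theorem kerDim_kap {G : Type} [Group G] {m n : ℕ} (A : Matrix (Fin m) (Fin n) (G →₀ ℂ)) :
    kerDim A = kap (mk A) := kerDim_kap' A

theorem mk_sub {G : Type} [Group G] {m n : ℕ} (S : Finset (Fin m)) (T : Finset (Fin n))
    (A : Matrix (Fin m) (Fin n) (G →₀ ℂ)) : mk (sub S T A) = mask S T (mk A) := by
  ext1 i j
  change MonoidAlgebra.ofCoeff (if i ∈ S ∧ j ∈ T then A i j else 0)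
    = if i ∈ S ∧ j ∈ T then MonoidAlgebra.ofCoeff (A i j) else 0
  split_ifs <;> rfl

theorem mk_ne {G : Type} [Group G] {m n : ℕ} (A : Matrix (Fin m) (Fin n) (G →₀ ℂ)) (i j)
    (h : mk A i j ≠ 0) : A i j ≠ 0 := by
  intro h0
  apply h
  change MonoidAlgebra.ofCoeff (A i j) = 0
  rw [h0]
  rfl

theorem HI_iff {G : Type} [Group G] {m n : ℕ} (A : Matrix (Fin m) (Fin n) (G →₀ ℂ))
    (R : Finset (Fin m)) (C : Finset (Fin n)) :
    HI R C (mk A) ↔ ∀ S ⊆ R, ∀ T ⊆ C, ∃ z : ℤ, kerDim (sub S T A) = z := by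
  constructor
  · intro h S hS T hT
    obtain ⟨z, hz⟩ := h S T hS hT
    refine ⟨m - z, ?_⟩
    rw [kerDim_kap, mk_sub]
    unfold rk at hz
    rw [Fintype.card_fin] at hz
    push_cast
    linarith
  · intro h S T hS hT
    obtain ⟨z, hz⟩ := h S hS T hT
    refine ⟨m - z, ?_⟩
    rw [kerDim_kap, mk_sub] at hz
    unfold rk
    rw [hz, Fintype.card_fin]
    push_cast
    rfl

theorem sub_univ {G : Type} {m n : ℕ} (A : Matrix (Fin m) (Fin n) (G →₀ ℂ)) :
    sub Finset.univ Finset.univ A = A := by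
  funext i j
  exact if_pos ⟨Finset.mem_univ _, Finset.mem_univ _⟩

theorem insep_congr {α β : Type} [Zero α] [Zero β] {m n : ℕ} (A : Matrix (Fin m) (Fin n) α)
    (B : Matrix (Fin m) (Fin n) β) (h : ∀ i j, A i j ≠ 0 ↔ B i j ≠ 0)
    (hA : Pool.Agent.Q102.TT.Inseparable A) : Inseparable B := by
  intro R₁ R₂ C₁ C₂ ⟨h1, h2, h3⟩
  refine hA R₁ R₂ C₁ C₂ ⟨h1, h2, ?_⟩
  rcases h3 with ⟨a, b, c⟩ | ⟨a, b, c⟩
  · exact Or.inl ⟨a, fun i hi j hj hne => b i hi j hj ((h i j).1 hne),
      fun i hi j hj hne => c i hi j hj ((h i j).1 hne)⟩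
  · exact Or.inr ⟨a, fun i hi j hj hne => b i hi j hj ((h i j).1 hne),
      fun i hi j hj hne => c i hi j hj ((h i j).1 hne)⟩

theorem mk_ne_iff {G : Type} [Group G] {m n : ℕ} (A : Matrix (Fin m) (Fin n) (G →₀ ℂ)) (i j) :
    mk A i j ≠ 0 ↔ A i j ≠ 0 := by
  refine ⟨mk_ne A i j, fun h h0 => h ?_⟩
  have h1 : (mk A i j).coeff = A i j := rfl
  rw [← h1, h0]
  rfl

/-- reduction to inseparable submatrices -/
theorem ins_red {G : Type} [Group G] {m n : ℕ} (A : Matrix (Fin m) (Fin n) (G →₀ ℂ))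
    (h : ∀ (k l : ℕ) (f : Fin k → Fin m) (g : Fin l → Fin n), Function.Injective f →
      Function.Injective g → Inseparable (A.submatrix f g) →
      ∃ z : ℤ, kerDim (A.submatrix f g) = z) : ∃ z : ℤ, kerDim A = z := by
  have h1 := ins_reduction (mk A) (by
    intro k l f g hf hg hins
    obtain ⟨z, hz⟩ := h k l f g hf hg (insep_congr _ (A.submatrix f g)
      (fun i j => mk_ne_iff A (f i) (g j)) hins)
    refine ⟨k - z, ?_⟩
    rw [kerDim_kap] at hz
    change kap ((mk A).submatrix f g) = z at hz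
    unfold rk
    rw [hz, Fintype.card_fin]
    push_cast
    rfl) _ Finset.univ Finset.univ le_rfl
  obtain ⟨z, hz⟩ := (HI_iff A _ _).1 h1 Finset.univ (Finset.Subset.refl _) Finset.univ
    (Finset.Subset.refl _)
  rw [sub_univ] at hz
  exact ⟨z, hz⟩

theorem atMostThree_submatrix {G : Type} {m n k l : ℕ} (B : Matrix (Fin m) (Fin n) (G →₀ ℤ))
    (hB : AtMostThree B) (f : Fin k → Fin m) (g : Fin l → Fin n) (hf : Function.Injective f)
    (hg : Function.Injective g) : AtMostThree (B.submatrix f g) := by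
  classical
  constructor
  · intro i
    calc ∑ j, absSum (B (f i) (g j)) = ∑ j ∈ Finset.univ.image g, absSum (B (f i) j) := by
          rw [Finset.sum_image (fun a _ b _ h => hg h)]
      _ ≤ ∑ j, absSum (B (f i) j) := Finset.sum_le_sum_of_subset (Finset.subset_univ _)
      _ ≤ 3 := hB.1 (f i)
  · intro j
    calc ∑ i, absSum (B (f i) (g j)) = ∑ i ∈ Finset.univ.image f, absSum (B i (g j)) := by
          rw [Finset.sum_image (fun a _ b _ h => hf h)]
      _ ≤ ∑ i, absSum (B i (g j)) := Finset.sum_le_sum_of_subset (Finset.subset_univ _)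
      _ ≤ 3 := hB.2 (g j)

theorem ofInt_ne_iff {G : Type} {m n : ℕ} (B : Matrix (Fin m) (Fin n) (G →₀ ℤ)) (i j) :
    ofInt B i j ≠ 0 ↔ B i j ≠ 0 := by
  apply not_congr
  constructor
  · intro h
    ext g
    have h1 := DFunLike.congr_fun h g
    change ((B i j g : ℤ) : ℂ) = 0 at h1
    exact_mod_cast h1
  · intro h
    ext g
    change ((B i j g : ℤ) : ℂ) = 0
    rw [h]
    simp

theorem insep_congr' {α β : Type} [Zero α] [Zero β] {m n : ℕ} (A : Matrix (Fin m) (Fin n) α)
    (B : Matrix (Fin m) (Fin n) β) (h : ∀ i j, A i j ≠ 0 ↔ B i j ≠ 0)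
    (hA : Inseparable A) : Inseparable B :=
  insep_congr A B h hA

/-- **Cut vertices.**
(1) Kernel dimensions of matrices built from pieces by gluing along rows and columns are integers.
(2) The kernel dimension of a matrix is an integer if this is true for those submatrices the graph
of which is connected and has no cut vertex.
(3) If all integer matrices over `G` with absolute row and column sums at most three and such a
graph have integral kernel dimension, then `G` satisfies the Atiyah conjecture. -/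
theorem result :
    (∀ P : Set ℂ, 0 ∈ P → ∀ (G : Type) [Group G] (m n : ℕ)
      (A : Matrix (Fin m) (Fin n) (G →₀ ℂ)), (∀ i j g, A i j g ∈ P) →
      (∀ (R : Finset (Fin m)) (C : Finset (Fin n)), Built P A R C →
        ∀ S ⊆ R, ∀ T ⊆ C, ∃ z : ℤ, kerDim (sub S T A) = z) ∧
      (Built P A Finset.univ Finset.univ → ∃ z : ℤ, kerDim A = z)) ∧
    (∀ (G : Type) [Group G] (m n : ℕ) (A : Matrix (Fin m) (Fin n) (G →₀ ℂ)),
      (∀ (k l : ℕ) (f : Fin k → Fin m) (g : Fin l → Fin n), Function.Injective f →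
        Function.Injective g → Inseparable (A.submatrix f g) →
        ∃ z : ℤ, kerDim (A.submatrix f g) = z) →
      ∃ z : ℤ, kerDim A = z) ∧
    ∀ (G : Type) [Group G],
      (∀ (m n : ℕ) (B : Matrix (Fin m) (Fin n) (G →₀ ℤ)), AtMostThree B → Inseparable B →
        ∃ z : ℤ, kerDim (ofInt B) = z) →
      ∀ (m n : ℕ) (A : Matrix (Fin m) (Fin n) (G →₀ ℚ)), ∃ z : ℤ, kerDim (ofRat A) = z := by
  refine ⟨?_, fun G _ m n A h => ins_red A h, ?_⟩
  · intro P h0 G _ m n A hP
    have main : ∀ (R : Finset (Fin m)) (C : Finset (Fin n)), Built P A R C → HI R C (mk A) := by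
      intro R C hB
      induction hB with
      | columns R C htf h => exact HI_two htf (mk A) R C (Or.inl h)
      | rows R C htf h => exact HI_two htf (mk A) R C (Or.inr h)
      | subgroup R C H u v hH h => exact HI_subgroup (mk A) H P h0 hP hH R C u v h
      | integral R C h => exact (HI_iff A R C).2 h
      | row R₁ R₂ C₁ C₂ r hR h12 h21 _ _ ih1 ih2 =>
        exact cut_row' (mk A) r R₁ R₂ C₁ C₂ hR
          (fun i hi j hj hne => h12 i hi j hj (mk_ne A i j hne))
          (fun i hi j hj hne => h21 i hi j hj (mk_ne A i j hne)) ih1 ih2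
      | column R₁ R₂ C₁ C₂ r hC h12 h21 _ _ ih1 ih2 =>
        exact cut_col' (mk A) r R₁ R₂ C₁ C₂ hC
          (fun i hi j hj hne => h12 i hi j hj (mk_ne A i j hne))
          (fun i hi j hj hne => h21 i hi j hj (mk_ne A i j hne)) ih1 ih2
    refine ⟨fun R C hB => (HI_iff A R C).1 (main R C hB), fun hB => ?_⟩
    obtain ⟨z, hz⟩ := (HI_iff A _ _).1 (main _ _ hB) Finset.univ (Finset.Subset.refl _)
      Finset.univ (Finset.Subset.refl _)
    rw [sub_univ] at hz
    exact ⟨z, hz⟩
  · intro G _ h m n A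
    obtain ⟨m', n', B, hB, hBA⟩ := Pool.Agent.Results.MP_95030e_al.TwoOrThreeTerms.red_rat A
    rw [← hBA]
    refine ins_red (ofInt B) fun k l f g hf hg hins => ?_
    exact h k l (B.submatrix f g) (atMostThree_submatrix B hB f g hf hg)
      (insep_congr' _ (B.submatrix f g) (fun i j => ofInt_ne_iff B (f i) (g j)) hins)

end Pool.Agent.Results.MP_c5ea68_al.CutVertices
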